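import Pool.Agent.Q230.EF.Main

/-!
# A non-traceable graph that guarantees connected fair allocations for common additive valuations

The vertices of a connected graph are goods, which are divided among `n` agents with the same
additive valuation, such that every share is empty or connected. The allocation is `EF1_outer` if
each agent values its own share at least as much as each other share after the removal of a suitable
outer vertex (a vertex whose removal leaves the share empty or connected). Every traceable graph
admits such allocations for all `n` and all valuations.

We give a graph on ten vertices that has no Hamiltonian path and admits such allocations for every
number of agents and every common additive valuation: a complete graph on `{0, 1, 4, 7, 8}`, the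
vertices `2` and `6` joined to `0` and `4`, the vertices `3` and `5` joined to `7` and `8`, and the
vertex `9` joined to `1`.

**Proof.** For at least ten agents we give away single vertices. For `n = 2, …, 9` the cone of all
valuations (up to the `32` symmetries) is cut into `16`, `190`, `672`, `500`, `694`, `430`, `240`,
`52` polyhedral cones by comparisons between the values of sets of vertices, and for each cone there
is one partition which is fair in the whole cone; each of the inequalities is a nonnegative
combination of those which define the cone. These combinations are listed in the files
`Pool/Agent/Q230/EF/T2.lean`, …, `T9.lean` and checked by the kernel (`chk`, `good_of_chk`).
-/

set_option autoImplicit false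

namespace Pool.Agent.Results.MP_7d34d8_co.NonTraceableCA

open Pool.Agent.Q230.EF

/-- `Traceable G`: there is a Hamiltonian path. `GuaranteesCA G`: for every `n ≥ 1` and all
valuations `v i S` (the value of the set `S` of vertices for the agent `i`) with
`v i S = ∑ x ∈ S, w x` for a function `w ≥ 0`, there is a connected allocation (disjoint sets `A i`
with union the vertex set, each of which is empty or induces a connected subgraph) such that for all
agents `i` and `j`, `v i (A j) ≤ v i (A i)`, or `A j` has a vertex `o` such that `A j \ {o}` is empty or
connected and `v i (A j \ {o}) ≤ v i (A i)`.

There is a connected non-traceable graph which universally guarantees connected `EF1_outer`
allocations for all common additive profiles. -/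
theorem result : ∃ G : SimpleGraph (Fin 10), G.Connected ∧ ¬ Traceable G ∧ GuaranteesCA G :=
  ⟨G, connected, not_traceable, guarantees⟩

end Pool.Agent.Results.MP_7d34d8_co.NonTraceableCA
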